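import Pool.Agent.H83.V.TW
import Pool.Agent.H6.V.VBL

/-!
Theorem W: row WBL (labels on one dyadic block).
-/

set_option autoImplicit false

open Finset

namespace Pool.Agent.H75.W

open Pool.Agent.H14.LF (sum_blocks)
open Pool.Agent.H83.V
open Pool.Agent.H6.V (count_win pat_mem)

open Classical in
/-- Labels on a block `[A, 2 A)`. -/
theorem blocks_card (good : ℕ → Prop) (b : ℕ → ℕ → Bool) (H A : ℕ) (hH : 0 < H) :
    ∃ τ : ℕ → ℕ → Bool,
      (((Ico A (2 * A)).filter (fun n => τ n ≠ τ (n + 1))).card : ℝ) ≤ (A : ℝ) / H ∧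
      ∀ (W : ℕ → ℝ) (C : ℝ), 0 ≤ C → (∀ n, 0 ≤ W n) →
        (∀ n0, good n0 → n0 + H ≤ 2 * A → (∀ h ∈ range H, τ (n0 + h) = b n0) →
          (H : ℝ) / 2 ≤ ∑ h ∈ range H, W (n0 + h) + C) →
        (((Ico A (2 * A)).filter good).card : ℝ) / 2 ≤
          ∑ n ∈ Ico A (2 * A), W n + H / 2 + C * ((A : ℝ) / H) := by
  have hH' : (0 : ℝ) < H := by exact_mod_cast hH
  -- the best offset
  obtain ⟨r, hr, hrs⟩ : ∃ r ∈ range H, (((Ico A (2 * A)).filter good).card : ℝ) / H ≤
      ((((Ico A (2 * A)).filter good).filter (fun n => (n - A) % H = r)).card : ℝ) := by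
    refine Finset.exists_le_of_sum_le (Finset.nonempty_range_iff.2 hH.ne') ?_
    rw [Finset.sum_const, Finset.card_range, nsmul_eq_mul, mul_div_cancel₀ _ hH'.ne']
    have h1 := Finset.card_eq_sum_card_fiberwise (s := (Ico A (2 * A)).filter good)
      (t := range H) (f := fun n => (n - A) % H)
      (fun n _ => Finset.mem_coe.2 (Finset.mem_range.2 (Nat.mod_lt _ hH)))
    rw [h1]
    push_cast
    exact le_rfl
  have hrH := Finset.mem_range.1 hr
  obtain ⟨s, hs⟩ : ∃ s, s = A + r := ⟨_, rfl⟩
  obtain ⟨L, hL⟩ : ∃ L, L = (2 * A - s) / H := ⟨_, rfl⟩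
  have hLr : (L : ℝ) ≤ (A : ℝ) / H := by
    rw [le_div_iff₀ hH']
    have h1 : L * H ≤ 2 * A - s := by
      rw [hL]
      exact Nat.div_mul_le_self _ _
    have h2 : L * H ≤ A := by omega
    exact_mod_cast h2
  obtain ⟨τ, hτ⟩ : ∃ τ : ℕ → ℕ → Bool, τ = fun n => b (s + (n - s) / H * H) := ⟨_, rfl⟩
  refine ⟨τ, ?_, ?_⟩
  · -- changes
    have hsub : (Ico A (2 * A)).filter (fun n => τ n ≠ τ (n + 1)) ⊆
        (range L).image (fun j => s + H - 1 + j * H) := by
      intro n hn
      rw [Finset.mem_filter, Finset.mem_Ico] at hn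
      obtain ⟨⟨hn1, hn2⟩, hn3⟩ := hn
      have hne : (n - s) / H ≠ (n + 1 - s) / H := fun h => hn3 (by rw [hτ]; simp only [h])
      have hns : s ≤ n := by
        by_contra h
        apply hne
        have e1 : n - s = 0 := by omega
        have e2 : n + 1 - s = 0 := by omega
        rw [e1, e2]
      obtain ⟨m, rfl⟩ := Nat.exists_eq_add_of_le hns
      have e1 : s + m - s = m := by omega
      have e2 : s + m + 1 - s = m + 1 := by omega
      rw [e1, e2, Nat.succ_div] at hne
      have hdvd : H ∣ m + 1 := by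
        by_contra h
        apply hne
        rw [if_neg h, Nat.add_zero]
      obtain ⟨c, hc⟩ := hdvd
      have hc0 : 0 < c := by
        rcases Nat.eq_zero_or_pos c with rfl | h
        · simp at hc
        · exact h
      rw [Finset.mem_image]
      refine ⟨c - 1, ?_, ?_⟩
      · rw [Finset.mem_range]
        have : c ≤ L := by
          rw [hL]
          refine (Nat.le_div_iff_mul_le hH).2 ?_
          rw [Nat.mul_comm, ← hc]
          omega
        omega
      · show s + H - 1 + (c - 1) * H = s + m
        obtain ⟨d, rfl⟩ := Nat.exists_eq_add_of_lt hc0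
        have : (0 + d + 1 - 1) * H = d * H := by congr 1; omega
        rw [this]
        have h3 : H * (0 + d + 1) = d * H + H := by ring
        omega
    have h1 := (Finset.card_le_card hsub).trans Finset.card_image_le
    rw [card_range] at h1
    refine le_trans ?_ hLr
    exact_mod_cast h1
  · intro W C hC hW hWb
    obtain ⟨J, hJ⟩ : ∃ J, J = (range L).filter (fun l => good (s + l * H)) := ⟨_, rfl⟩
    have hfib : (((Ico A (2 * A)).filter good).filter (fun n => (n - A) % H = r)).card ≤
        J.card + 1 := by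
      have hsub : ((Ico A (2 * A)).filter good).filter (fun n => (n - A) % H = r) ⊆
          insert (s + L * H) (J.image (fun l => s + l * H)) := by
        intro n hn
        rw [Finset.mem_filter, Finset.mem_filter, Finset.mem_Ico] at hn
        obtain ⟨⟨⟨hn1, hn2⟩, hn3⟩, hn4⟩ := hn
        have h2 := Nat.mod_add_div (n - A) H
        have h3 : n = s + (n - A) / H * H := by
          rw [Nat.mul_comm]
          omega
        rw [Finset.mem_insert, Finset.mem_image]
        by_cases hl : (n - A) / H < L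
        · right
          exact ⟨(n - A) / H, by rw [hJ, mem_filter, mem_range, ← h3]; exact ⟨hl, hn3⟩, h3.symm⟩
        · left
          have h4 : (n - A) / H ≤ L := by
            rw [hL]
            refine (Nat.le_div_iff_mul_le hH).2 ?_
            omega
          have h5 : (n - A) / H = L := by omega
          rw [← h5]
          exact h3
      exact (Finset.card_le_card hsub).trans ((Finset.card_insert_le _ _).trans
        (Nat.add_le_add_right Finset.card_image_le 1))
    have hfib' : (((Ico A (2 * A)).filter good).card : ℝ) / H ≤ (J.card : ℝ) + 1 :=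
      hrs.trans (by exact_mod_cast hfib)
    rw [div_le_iff₀ hH'] at hfib'
    have hJL : (J.card : ℝ) ≤ L := by
      have h1 : J.card ≤ (range L).card := by
        rw [hJ]
        exact Finset.card_filter_le _ _
      rw [card_range] at h1
      exact_mod_cast h1
    -- one block
    have hblock : ∀ l ∈ J, (H : ℝ) / 2 ≤ ∑ h ∈ range H, W (s + l * H + h) + C := by
      intro l hl
      rw [hJ, mem_filter, mem_range] at hl
      refine hWb (s + l * H) hl.2 ?_ ?_
      · have h1 : (l + 1) * H ≤ 2 * A - s := (Nat.le_div_iff_mul_le hH).1 (hL ▸ hl.1)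
        rw [Nat.succ_mul] at h1
        omega
      · intro h hh
        rw [hτ]
        show b (s + (s + l * H + h - s) / H * H) = _
        have e1 : s + l * H + h - s = h + H * l := by rw [Nat.mul_comm H l]; omega
        rw [e1, Nat.add_mul_div_left _ _ hH, Nat.div_eq_of_lt (Finset.mem_range.1 hh),
          Nat.zero_add]
    have h1 : (J.card : ℝ) * (H / 2) ≤ ∑ l ∈ J, ∑ h ∈ range H, W (s + l * H + h) +
        J.card * C := by
      have h2 := Finset.sum_le_sum hblock
      rw [Finset.sum_const, nsmul_eq_mul, Finset.sum_add_distrib, Finset.sum_const,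
        nsmul_eq_mul] at h2
      exact h2
    have h2 : ∑ l ∈ J, ∑ h ∈ range H, W (s + l * H + h) ≤ ∑ n ∈ Ico A (2 * A), W n := by
      have h3 : ∑ l ∈ J, ∑ h ∈ range H, W (s + l * H + h) ≤
          ∑ l ∈ range L, ∑ h ∈ range H, W (s + l * H + h) := by
        rw [hJ]
        exact Finset.sum_le_sum_of_subset_of_nonneg (Finset.filter_subset _ _)
          fun l _ _ => Finset.sum_nonneg fun h _ => hW _
      refine h3.trans ?_
      rw [sum_blocks W s H L]
      have hinj : Set.InjOn (fun i => s + i) (range (L * H) : Set ℕ) :=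
        fun i _ j _ h => Nat.add_left_cancel h
      rw [← Finset.sum_image (f := W) hinj]
      refine Finset.sum_le_sum_of_subset_of_nonneg ?_ fun n _ _ => hW n
      intro n hn
      rw [Finset.mem_image] at hn
      obtain ⟨i, hi, rfl⟩ := hn
      have h4 := Finset.mem_range.1 hi
      have h5 : L * H ≤ 2 * A - s := by
        rw [hL]
        exact Nat.div_mul_le_self _ _
      rw [Finset.mem_Ico]
      omega
    have h3 : (J.card : ℝ) * C ≤ C * ((A : ℝ) / H) := by
      rw [mul_comm]
      exact mul_le_mul_of_nonneg_left (hJL.trans hLr) hC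
    nlinarith

/-- WBL: labels on one dyadic block. -/
theorem pf_WBL (hG : T_GDL) : T_WBL := by
  classical
  intro z m I η H i hη hH
  obtain ⟨_, _, hG3, _⟩ := hG m I
  have hH' : (0 : ℝ) < H := by exact_mod_cast hH
  -- the label of a good block
  have hlab : ∀ n0 : ℕ, ∃ b : ℕ → Bool, Gn z m I η H n0 →
      (((range H).filter fun h => pat z m (n0 + h) ∉ Gd I b).card : ℝ) ≤ η * H := by
    intro n0
    by_cases hgd : Gn z m I η H n0
    · obtain ⟨G, hG1, hG2⟩ := hgd
      obtain ⟨b, _, hb⟩ := hG3 G hG1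
      refine ⟨b, fun _ => le_trans ?_ hG2⟩
      have h1 : ((range H).filter fun h => pat z m (n0 + h) ∉ Gd I b) ⊆
          ((range H).filter fun h => pat z m (n0 + h) ∉ G) := by
        intro h hh
        rw [Finset.mem_filter] at hh ⊢
        exact ⟨hh.1, fun hc => hh.2 (hb _ (pat_mem z m _) hc)⟩
      exact_mod_cast Finset.card_le_card h1
    · exact ⟨fun _ => false, fun h => absurd h hgd⟩
  choose b hb using hlab
  obtain ⟨τ, hτ1, hτ2⟩ := blocks_card (fun n => Gn z m I η H n) b H (2 ^ i) hH
  have e0 : 2 ^ (i + 1) = 2 * 2 ^ i := by rw [pow_succ, mul_comm]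
  rw [e0]
  refine ⟨τ, ?_, fun K hK => ?_⟩
  · refine hτ1.trans ?_
    push_cast
    linarith
  have hK' : (0 : ℝ) < K := by exact_mod_cast hK
  obtain ⟨W, hWd⟩ : ∃ W : ℕ → ℝ, W = fun n =>
    if n + K ≤ 2 * 2 ^ i ∧ aN z I τ K n ≤ 2 * η then 1 else 0 := ⟨_, rfl⟩
  have hW0 : ∀ n, 0 ≤ W n := fun n => by
    rw [hWd]
    dsimp only
    split_ifs <;> norm_num
  have h1 := hτ2 W K (Nat.cast_nonneg K) hW0 (by
    intro n0 hgd hn0H hn0
    have he0 : ∀ n, 0 ≤ eN z I τ n := by
      intro n
      unfold eN
      split_ifs <;> norm_num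
    obtain ⟨B, hB⟩ : ∃ B : ℝ, B = K * (2 * η) + 1 := ⟨_, rfl⟩
    have hB0 : 0 ≤ B := by rw [hB]; positivity
    obtain ⟨e, he⟩ : ∃ e : ℕ → ℝ, e = fun n => if n < n0 + H then eN z I τ n else B := ⟨_, rfl⟩
    have hee0 : ∀ n, 0 ≤ e n := by
      intro n
      rw [he]
      dsimp only
      split_ifs
      · exact he0 n
      · exact hB0
    refine count_win e hee0 η hη H K n0 hK W ?_ hW0 ?_
    · intro n hn
      rw [div_le_iff₀ hK'] at hn
      have hnK : n + K ≤ n0 + H := by
        by_contra hc
        push Not at hc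
        have hk : K - 1 ∈ range K := mem_range.2 (by omega)
        have h2 : e (n + (K - 1)) = B := by
          rw [he]
          dsimp only
          rw [if_neg (by omega)]
        have h3 : e (n + (K - 1)) ≤ ∑ k ∈ range K, e (n + k) :=
          Finset.single_le_sum (f := fun k => e (n + k)) (fun k _ => hee0 _) hk
        rw [h2, hB] at h3
        linarith
      have h4 : ∑ k ∈ range K, e (n + k) = ∑ k ∈ range K, eN z I τ (n + k) := by
        refine Finset.sum_congr rfl fun k hk => ?_
        rw [mem_range] at hk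
        rw [he]
        dsimp only
        rw [if_pos (by omega)]
      rw [hWd]
      dsimp only
      rw [if_pos]
      refine ⟨by omega, ?_⟩
      unfold aN
      rw [div_le_iff₀ hK', ← h4]
      exact hn
    · have h2 : ∑ h ∈ range H, e (n0 + h) = ∑ h ∈ range H, eN z I τ (n0 + h) := by
        refine Finset.sum_congr rfl fun h hh => ?_
        rw [mem_range] at hh
        rw [he]
        dsimp only
        rw [if_pos (by omega)]
      rw [h2]
      refine le_trans (le_of_eq ?_) (hb n0 hgd)
      rw [Finset.card_filter]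
      push_cast
      refine Finset.sum_congr rfl fun h hh => ?_
      unfold eN
      rw [hn0 h hh]
      by_cases hc : pat z m (n0 + h) ∈ Gd I (b n0)
      · rw [if_pos hc, if_neg (not_not.2 hc)]
      · rw [if_neg hc, if_pos hc])
  have h2 : ∑ n ∈ Ico (2 ^ i) (2 * 2 ^ i), W n =
      (((Ico (2 ^ i) (2 * 2 ^ i)).filter
        (fun n => n + K ≤ 2 * 2 ^ i ∧ aN z I τ K n ≤ 2 * η)).card : ℝ) := by
    rw [hWd, Finset.card_filter]
    push_cast
    rfl
  rw [h2] at h1
  push_cast at h1 ⊢
  have h3 : (K : ℝ) * (2 ^ i / (H : ℝ) + 1) = K * (2 ^ i / (H : ℝ)) + K := by ring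
  rw [h3]
  linarith

end Pool.Agent.H75.W
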